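import Pool.Agent.GEN.StmtsZC
import Pool.Agent.Helper51_Simp.FTS
import Pool.Agent.Helper39_Simp.Split

/-!
# Squad GEN, row AFK: the bundle of affine spaces
-/

set_option autoImplicit false
set_option linter.unusedVariables false
set_option linter.unusedSectionVars false

namespace Pool.Agent.GEN.H2

open PowerSeries Finset Pool.Agent.Helper6_Mono Pool.Agent.Helper30_Simp
  Pool.Agent.Helper30_Simp.H32 Pool.Agent.Helper30_Simp2 Pool.Agent.Helper30_Simp2.H63
open Pool.Agent.Helper30_Simp.H39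

theorem keep_sub {σ : Type} (I : Finset (σ →₀ ℕ)) (K K' : Finset σ) : keep I K K' ⊆ I := by
  classical
  unfold keep
  exact Finset.filter_subset _ _

variable {k : Type} [Field k] {σ : Type} [Fintype σ]

theorem mem_part {f : MvPolynomial σ k} {I : Finset (σ →₀ ℕ)} (hI : I ⊆ f.support)
    {α : σ →₀ ℕ} (hα : α ∈ I) : α ∈ (part f I).support := by
  classical
  rw [MvPolynomial.mem_support_iff]
  unfold part
  rw [MvPolynomial.coeff_sum, Finset.sum_eq_single α]
  · rw [MvPolynomial.coeff_monomial, if_pos rfl]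
    exact MvPolynomial.mem_support_iff.1 (hI hα)
  · intro β _ hβ
    rw [MvPolynomial.coeff_monomial, if_neg hβ]
  · intro h
    exact absurd hα h

/-- the value of `part f I` is an affine function of each coordinate in `K` -/
theorem aeval_upd (h1 : DcaStmt) {f : MvPolynomial σ k} {I : Finset (σ →₀ ℕ)} {K : Finset σ}
    (hK : Stab I K) {j : σ} (hj : j ∈ K) {S : Type} [CommRing S] [Algebra k S] (x y : σ → S)
    (h : ∀ i, i ≠ j → x i = y i) :
    MvPolynomial.aeval x (part f I)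
      = MvPolynomial.aeval y (part f I) + (x j - y j) * gjv f I j y := by
  classical
  obtain ⟨d1, d2, -, -⟩ := h1 k σ f I K hK S
  obtain ⟨e1, e2⟩ := d2 x y fun i hi => h i fun h' => hi (h' ▸ hj)
  rw [d1 x, d1 y, e1, Finset.sum_congr rfl fun i hi => by rw [e2 i hi], add_assoc]
  congr 1
  have h3 : ∑ i ∈ K, (x i - y i) * gjv f I i y = (x j - y j) * gjv f I j y := by
    rw [Finset.sum_eq_single j]
    · intro i hi hij
      rw [h i hij, sub_self, zero_mul]
    · intro h'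
      exact absurd hj h'
  rw [← h3, ← Finset.sum_add_distrib]
  exact Finset.sum_congr rfl fun i _ => by ring

/-- the function `g_j` -/
@[reducible] noncomputable def gF (h1 : DcaStmt) {f : MvPolynomial σ k} {I : Finset (σ →₀ ℕ)}
    {K : Finset σ} (hK : Stab I K) (V : TS QZ (part f I))
    (hw : ∀ α ∈ I, Finsupp.weight V.ν α = 0) (j : {j // j ∈ K}) : NF V.A.F (-(V.ν j.1)) :=
  ⟨fun {S} _ _ x => gjv f I j.1 x, fun {S S'} _ _ _ _ φ c x =>
    (h1 k σ f I K hK S).2.2.2 S' QZ V.ν hw φ c x j.1 j.2⟩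

/-- the function `g_j` on the bundle -/
@[reducible] noncomputable def gE (h1 : DcaStmt) {f : MvPolynomial σ k} {I : Finset (σ →₀ ℕ)}
    {K : Finset σ} (hK : Stab I K) (b : Bool) (V : TS QZ (part f I)) (hμ : V.μ = 0)
    (hw : ∀ α ∈ I, Finsupp.weight V.ν α = 0) (j : {j // j ∈ K}) :
    NF (TE V hμ b K).F (-(V.ν j.1)) :=
  ⟨fun {S} _ _ x => gjv f I j.1 x.1, fun {S S'} _ _ _ _ φ c x =>
    (gF h1 hK V hw j).fn_tw φ c x.1⟩

/-- the function `g_j` on the torus -/
@[reducible] noncomputable def gT (h1 : DcaStmt) {f : MvPolynomial σ k} {I : Finset (σ →₀ ℕ)}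
    {K : Finset σ} (hK : Stab I K) (V : TS QZ (part f I))
    (hw : ∀ α ∈ I, Finsupp.weight V.ν α = 0)
    (hT : ∀ {S S' : Type} [CommRing S] [Algebra k S] [CommRing S'] [Algebra k S']
      (φ : S →ₐ[k] S') (c : Chr QZ S') (s : S), True → True) (j : {j // j ∈ K}) :
    NF (TQ (TS.rem V K) (fun S _ _ s => True) hT).F (-(V.ν j.1)) :=
  ⟨fun {S} _ _ x => gjv f I j.1 x.1, fun {S S'} _ _ _ _ φ c x =>
    (gF h1 hK V hw j).fn_tw φ c x.1⟩

theorem stp_iso (h1 : DcaStmt) {f : MvPolynomial σ k} {I : Finset (σ →₀ ℕ)} {K : Finset σ}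
    (hK : Stab I K) (b : Bool) (V : TS QZ (part f I)) (hμ : V.μ = 0)
    (hw : ∀ α ∈ I, Finsupp.weight V.ν α = 0)
    (hKU : ∀ j ∈ K, j ∈ V.U) (hKJ : ∀ j ∈ K, j ∉ V.J) {n : ℕ} (e : Fin n → {j // j ∈ K})
    (hT : ∀ {S S' : Type} [CommRing S] [Algebra k S] [CommRing S'] [Algebra k S']
      (φ : S →ₐ[k] S') (c : Chr QZ S') (s : S), True → True) (a : Fin n) :
    OIso ((TE V hμ b K).stp (fun a => gE h1 hK b V hμ hw (e a)) a)
      (((TQ (TS.rem V K) (fun S _ _ s => True) hT).stp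
        (fun a => gT h1 hK V hw hT (e a)) a).times
        (GF.pi k (fun i : {i // i ∈ K ∧ i ≠ (e a).1} => V.ν i.1))) := by
  classical
  have hg2 : ∀ {S : Type} [CommRing S] [Algebra k S] (x y : σ → S), (∀ i, i ∉ K → x i = y i) →
      ∀ i : {j // j ∈ K}, gjv f I i.1 x = gjv f I i.1 y := by
    intro S _ _ x y h i
    exact ((h1 k σ f I K hK S).2.1 x y h).2 i.1 i.2
  have hcut : ∀ {S : Type} [CommRing S] [Algebra k S] (x : σ → S) (i : {j // j ∈ K}),
      gjv f I i.1 (fun l => if l ∈ K then 0 else x l) = gjv f I i.1 x := by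
    intro S _ _ x i
    exact hg2 _ _ (fun l hl => if_neg hl) i
  refine OIso.ofBij (fun S _ _ x => (⟨⟨fun i => if i ∈ K then 0 else x.1.1 i,
    fun i => ⟨fun h => ?_, fun h => ?_⟩, trivial⟩, ?_⟩, fun i => x.1.1 i.1)) ?_ ?_ ?_
  · rw [TS.mem_rem] at h
    show IsUnit (if i ∈ K then 0 else x.1.1 i)
    rw [if_neg h.2]
    exact (x.1.2.1 i).1 h.1 h.2
  · show (if i ∈ K then 0 else x.1.1 i) = 0
    split_ifs with hi
    · rfl
    · rw [TS.mem_rem] at h
      exact (x.1.2.1 i).2 fun h' => h ⟨h', hi⟩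
  · have hx := x.2
    refine ⟨fun i hi => ?_, ?_⟩
    · show gjv f I (e i).1 (fun l => if l ∈ K then 0 else x.1.1 l) = 0
      rw [hcut]
      exact hx.1 i hi
    · show IsUnit (gjv f I (e a).1 (fun l => if l ∈ K then 0 else x.1.1 l))
      rw [hcut]
      exact hx.2
  · intro S S' _ _ _ _ φ c x
    refine Prod.ext (Subtype.ext (Subtype.ext (funext fun l => ?_))) rfl
    show (if l ∈ K then 0 else chr c (V.ν l) * φ (x.1.1 l))
      = chr c (V.ν l) * φ (if l ∈ K then 0 else x.1.1 l)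
    split_ifs with hl
    · rw [map_zero, mul_zero]
    · rfl
  · intro S _ _
    constructor
    · intro x y hxy
      have h2 : ∀ l, l ≠ (e a).1 → x.1.1 l = y.1.1 l := by
        intro l hl
        by_cases hlK : l ∈ K
        · exact congrFun (congrArg Prod.snd hxy) ⟨l, hlK, hl⟩
        · have h3 := congrFun (congrArg Subtype.val (congrArg Subtype.val
            (congrArg Prod.fst hxy))) l
          change (if l ∈ K then 0 else x.1.1 l) = (if l ∈ K then 0 else y.1.1 l) at h3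
          rwa [if_neg hlK, if_neg hlK] at h3
      have h3 : MvPolynomial.aeval x.1.1 (part f I) = eB b S := x.1.2.2
      have h4 : MvPolynomial.aeval y.1.1 (part f I) = eB b S := y.1.2.2
      have h5 := aeval_upd h1 (f := f) hK (e a).2 x.1.1 y.1.1 h2
      rw [h3, h4] at h5
      have h6 : (x.1.1 (e a).1 - y.1.1 (e a).1) * gjv f I (e a).1 y.1.1 = 0 * gjv f I (e a).1 y.1.1 := by
        rw [zero_mul]
        exact left_eq_add.1 h5
      have h7 : IsUnit (gjv f I (e a).1 y.1.1) := y.2.2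
      have h8 : x.1.1 (e a).1 = y.1.1 (e a).1 := sub_eq_zero.1 (h7.mul_right_cancel h6)
      refine Subtype.ext (Subtype.ext (funext fun l => ?_))
      by_cases hl : l = (e a).1
      · rw [hl, h8]
      · exact h2 l hl
    · intro y
      obtain ⟨⟨⟨y, hy1, -⟩, hy2⟩, z⟩ := y
      obtain ⟨m, hm⟩ : IsUnit (gjv f I (e a).1 y) := hy2.2
      let x0 : σ → S := fun i => if h : i ∈ K ∧ i ≠ (e a).1 then z ⟨i, h⟩ else y i
      have hyK : ∀ i, i ∈ K → y i = 0 := fun i hi => (hy1 i).2 fun h => by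
        rw [TS.mem_rem] at h
        exact h.2 hi
      have hx0 : ∀ i, i ∉ K → x0 i = y i := by
        intro i hi
        show (if h : i ∈ K ∧ i ≠ (e a).1 then z ⟨i, h⟩ else y i) = y i
        rw [dif_neg fun h => hi h.1]
      have hx0a : x0 (e a).1 = 0 := by
        show (if h : (e a).1 ∈ K ∧ (e a).1 ≠ (e a).1 then z ⟨(e a).1, h⟩ else y (e a).1) = 0
        rw [dif_neg fun h => h.2 rfl]
        exact hyK _ (e a).2
      let x : σ → S := fun i => if i = (e a).1 then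
        (eB b S - MvPolynomial.aeval x0 (part f I)) * (m⁻¹ : Sˣ) else x0 i
      have hxa : x (e a).1 = (eB b S - MvPolynomial.aeval x0 (part f I)) * (m⁻¹ : Sˣ) :=
        if_pos rfl
      have hxn : ∀ i, i ≠ (e a).1 → x i = x0 i := fun i hi => if_neg hi
      have hxK : ∀ i, i ∉ K → x i = y i := fun i hi => by
        rw [hxn i fun h => hi (h ▸ (e a).2), hx0 i hi]
      have hgx : ∀ i : {j // j ∈ K}, gjv f I i.1 x = gjv f I i.1 y := hg2 x y hxK
      have hgx0 : ∀ i : {j // j ∈ K}, gjv f I i.1 x0 = gjv f I i.1 y := hg2 x0 y hx0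
      have hval : MvPolynomial.aeval x (part f I) = eB b S := by
        rw [aeval_upd h1 (f := f) hK (e a).2 x x0 hxn, hgx0 (e a), hxa, hx0a, sub_zero, ← hm,
          mul_assoc, Units.inv_mul, mul_one]
        ring
      refine ⟨⟨⟨x, fun i => ⟨fun h h' => ?_, fun h => ?_⟩, hval⟩, fun i hi => ?_, ?_⟩, ?_⟩
      · rw [hxK i h']
        exact (hy1 i).1 ((TS.mem_rem V K i).2 ⟨h, h'⟩)
      · have hiK : i ∉ K := fun h' => h (hKU i h')
        rw [hxK i hiK]
        exact (hy1 i).2 fun h' => h ((TS.mem_rem V K i).1 h').1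
      · show gjv f I (e i).1 x = 0
        rw [hgx]
        exact hy2.1 i hi
      · show IsUnit (gjv f I (e a).1 x)
        rw [hgx]
        exact hy2.2
      · refine Prod.ext (Subtype.ext (Subtype.ext (funext fun l => ?_))) (funext fun l => ?_)
        · show (if l ∈ K then 0 else x l) = y l
          split_ifs with hl
          · exact (hyK l hl).symm
          · exact hxK l hl
        · show x l.1 = z l
          rw [hxn l.1 l.2.2]
          show (if h : l.1 ∈ K ∧ l.1 ≠ (e a).1 then z ⟨l.1, h⟩ else y l.1) = z l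
          rw [dif_pos l.2]
  · intro S _ _ x l
    show (if l ∈ V.J then (if l ∈ K then 0 else x.1.1 l) else 0) = if l ∈ V.J then x.1.1 l else 0
    split_ifs with h2 h3
    · exact absurd h2 (hKJ l h3)
    · rfl
    · rfl

/-- **Row AFK** -/
theorem afk (h1 : DcaStmt) (h2 : StkStmt) : AfkStmt := by
  classical
  intro k _ σ _ R _ L χ f I J K hI hJ hK b V hμ hU hVJ hne
  have hw : ∀ α ∈ I, Finsupp.weight V.ν α = 0 := fun α hα => by
    rw [V.hg α (mem_part hI hα), hμ]
  have hKo : ∀ j ∈ K, ∃ α ∈ I, α j ≠ 0 := fun j hj => by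
    obtain ⟨α, hα, h'⟩ := hK.2.2 j hj
    exact ⟨α, hα, by rw [h']; exact one_ne_zero⟩
  have hU' : ∀ i, i ∈ V.U ↔ (i ∈ J ∨ ∃ α ∈ I, α i ≠ 0) := by
    intro i
    rw [hU, H39.mem_freeV]
    push Not
    constructor
    · intro h
      by_cases h4 : i ∈ J
      · exact Or.inl h4
      · exact Or.inr (h h4)
    · rintro (h | h) h'
      · exact absurd h h'
      · exact h
  have hKU : ∀ j ∈ K, j ∈ V.U := fun j hj => (hU' j).2 (Or.inr (hKo j hj))
  have hKJ' : ∀ j ∈ K, j ∉ J := fun j hj => Finset.disjoint_left.1 hJ hj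
  have hKJ : ∀ j ∈ K, j ∉ V.J := fun j hj => by
    rw [hVJ]
    exact hKJ' j hj
  have hft : FT (TE V hμ b K).F := (h2 k σ R L χ f I J K hI hJ hK b V hμ hU hVJ
    (fun K' => keep_sub I K K')).1
  obtain ⟨e⟩ : Nonempty (Fin K.card ≃ {j // j ∈ K}) := ⟨K.equivFin.symm⟩
  -- the torus
  obtain ⟨T, hTdef⟩ : ∃ T : Finset σ, T = univ.filter fun i => i ∉ J ∧ ∃ α ∈ I, α i ≠ 0 :=
    ⟨_, rfl⟩
  have hTm : ∀ i, i ∈ T ↔ i ∉ J ∧ ∃ α ∈ I, α i ≠ 0 := by
    intro i
    rw [hTdef, Finset.mem_filter]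
    simp
  have hTc : T.card = dd I J := by
    rw [hTdef]
    unfold dd
    congr
  have hKT : K ⊆ T := fun j hj => (hTm j).2 ⟨hKJ' j hj, hKo j hj⟩
  obtain ⟨hftT, htor⟩ := torus_cl (g := part f I) H51.fts (Pool.Agent.Helper30_Simp.H39.split H51.fts) χ f J (TS.rem V K)
    hVJ (fun i hi => (TS.mem_rem V K i).2 ⟨(hU' i).2 (Or.inl hi), fun h => hKJ' i h hi⟩)
    (fun _ _ _ h => h) (T \ K) (fun i => by
      rw [Finset.mem_sdiff, hTm, TS.mem_rem, hU']
      constructor
      · rintro ⟨⟨h3, h4⟩, h5⟩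
        exact ⟨⟨Or.inr h4, h5⟩, h3⟩
      · rintro ⟨⟨h3, h4⟩, h5⟩
        exact ⟨⟨h5, h3.resolve_left h5⟩, h4⟩)
  rw [Finset.card_sdiff_of_subset hKT, hTc] at htor
  -- the two staircases
  have s1 := χ.stair hft (fun a => gE h1 hK b V hμ hw (e a))
  have s2 := χ.stair hftT (fun a => gT h1 hK V hw (fun _ _ _ h => h) (e a))
  have z1 : χ.χ ((TE V hμ b K).stz (fun a => gE h1 hK b V hμ hw (e a))) = 0 := by
    refine χ.empty (FT.stz hft _) fun S _ _ x => ?_
    by_contra hn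
    have : Nontrivial S := ⟨⟨1, 0, hn⟩⟩
    refine hne S x.1.1 (fun i hi ho => (x.1.2.1 i).1 ((hU' i).2 (Or.inr ho)) hi) fun j hj => ?_
    have h3 : gjv f I (e (e.symm ⟨j, hj⟩)).1 x.1.1 = 0 := x.2 (e.symm ⟨j, hj⟩)
    rwa [Equiv.apply_symm_apply] at h3
  have z2 : χ.χ ((TQ (TS.rem V K) (fun S _ _ s => True) (fun _ _ _ h => h)).stz
      (fun a => gT h1 hK V hw (fun _ _ _ h => h) (e a))) = 0 := by
    refine χ.empty (FT.stz hftT _) fun S _ _ x => ?_
    by_contra hn
    have : Nontrivial S := ⟨⟨1, 0, hn⟩⟩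
    refine hne S x.1.1 (fun i hi ho => (x.1.2.1 i).1
      ((TS.mem_rem V K i).2 ⟨(hU' i).2 (Or.inr ho), hi⟩)) fun j hj => ?_
    have h3 : gjv f I (e (e.symm ⟨j, hj⟩)).1 x.1.1 = 0 := x.2 (e.symm ⟨j, hj⟩)
    rwa [Equiv.apply_symm_apply] at h3
  rw [z1, add_zero] at s1
  rw [z2, add_zero] at s2
  have hcard : ∀ j : {j // j ∈ K}, Nat.card {i // i ∈ K ∧ i ≠ j.1} = K.card - 1 := by
    intro j
    rw [Nat.subtype_card (K.erase j.1) (fun i => by rw [Finset.mem_erase]; tauto),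
      Finset.card_erase_of_mem j.2]
  rw [s1, Finset.sum_congr rfl fun a _ => by
    rw [χ.iso (FT.stp hft _ a) (stp_iso h1 hK b V hμ hw hKU hKJ e (fun _ _ _ h => h) a),
      χ.times_pi (FT.stp hftT _ a), hcard], ← Finset.mul_sum, ← s2, htor]
  ring

end Pool.Agent.GEN.H2
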